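import Pool.Agent.H76.SD.Fin

/-!
# SETH for semidefinite programming (MP_c62aed_lc)

Semidefinite relaxations of CNF-SAT, with constraints of any order, with branch and bound and
adaptive choice of the constraints, have at least `2 ^ ((1 - ε) n)` matrix entries.
-/

namespace Pool.Agent.Results.MP_c62aed_lc.SemidefiniteSETH

open Pool.Agent.H76.SD

/-- For every `ε > 0` there are `c` and `n₀` such that for all `n ≥ n₀`, `s = ⌊√n⌋`, and every
family of at most `2 ^ 2 ^ s` semidefinite relaxations of CNF-SAT on cells of the cube, with at most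
`2 ^ 2 ^ s` constraints of any order each, there is a CNF formula `phi` with `n` variables and
`m ≤ 2 ^ (c s)` clauses, all with exactly `w ≤ c s` variables, in which every assignment violates at
least `(1 - ε) m / 2 ^ w` clauses, such that whenever cells of the family partition the cube and,
for every cell `j` of the partition, the constraints in a set `I j` refute `phi` with margin
`2 ^ (-s)`, the sum of `1 + ∑ i ∈ I j, (ord i) ^ 2` over these cells is at least
`2 ^ ((1 - ε) n)`. -/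
theorem result :
    ∀ ε : ℝ, 0 < ε → ∃ c n₀ : ℕ, ∀ n : ℕ, n₀ ≤ n →
      ∀ (M : ℕ) (P : Fin M → Relax n), M ≤ 2 ^ 2 ^ Nat.sqrt n →
      (∀ j, (P j).size ≤ 2 ^ 2 ^ Nat.sqrt n) →
      ∃ (w m : ℕ) (phi : Fin m → Clause n), 1 ≤ m ∧ m ≤ 2 ^ (c * Nat.sqrt n) ∧
        w ≤ c * Nat.sqrt n ∧
        (∀ i, (phi i).card = w ∧ ((phi i).image Prod.fst).card = w) ∧
        (∀ x, (1 - ε) * (m / 2 ^ w) ≤ (viol phi x : ℝ)) ∧
        ∀ (J : Finset (Fin M)) (I : (j : Fin M) → Finset (Fin (P j).size)),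
          (∀ j ∈ J, ∀ j' ∈ J, j ≠ j' → Disjoint (P j).cell (P j').cell) →
          (∀ x, ∃ j ∈ J, x ∈ (P j).cell) →
          (∀ j ∈ J, (P j).RefutesBy (I j) phi ((1 / 2 : ℝ) ^ Nat.sqrt n)) →
          (2 : ℝ) ^ ((1 - ε) * n) ≤ ∑ j ∈ J, (1 + ∑ i ∈ I j, ((P j).ord i : ℝ) ^ 2) :=
  statement

end Pool.Agent.Results.MP_c62aed_lc.SemidefiniteSETH
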